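import Mathlib

set_option autoImplicit false

namespace Pool.Agent.Results.MP_2c5934_co.SmallSets

open Finset

/-- the `h`-fold sumset `hA` -/
def hfold {G : Type} [AddCommGroup G] (A : Finset G) (h : ℕ) : Set G :=
  {x | ∃ f : Fin h → G, (∀ i, f i ∈ A) ∧ x = ∑ i, f i}

/-- the `h`-fold signed sumset `h_± A` -/
def signed {G : Type} [AddCommGroup G] (A : Finset G) (h : ℕ) : Set G :=
  {x | ∃ l : G → ℤ, ∑ a ∈ A, |l a| = (h : ℤ) ∧ x = ∑ a ∈ A, l a • a}

/-- `ρ(G,m,h)` -/
noncomputable def rho (G : Type) [AddCommGroup G] (m h : ℕ) : ℕ :=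
  sInf {n | ∃ A : Finset G, A.card = m ∧ (hfold A h).ncard = n}

/-- `ρ_±(G,m,h)` -/
noncomputable def rhoS (G : Type) [AddCommGroup G] (m h : ℕ) : ℕ :=
  sInf {n | ∃ A : Finset G, A.card = m ∧ (signed A h).ncard = n}

/-- `δ = 0` if `h ∣ p - 1` and `δ = 1` otherwise -/
def delta (p h : ℕ) : ℕ := if h ∣ p - 1 then 0 else 1

variable {p r : ℕ}

theorem hfold_subset {G : Type} [AddCommGroup G] [DecidableEq G] (A : Finset G) (h : ℕ) :
    hfold A h ⊆ signed A h := by
  rintro x ⟨f, hf, rfl⟩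
  refine ⟨fun a => (((univ : Finset (Fin h)).filter (fun i => f i = a)).card : ℤ), ?_, ?_⟩
  · simp only [Nat.abs_cast]
    rw [← Nat.cast_sum]
    have := card_eq_sum_card_fiberwise (f := f) (s := (univ : Finset (Fin h))) (t := A)
      (fun i _ => hf i)
    rw [← this, card_univ, Fintype.card_fin]
  · rw [← sum_fiberwise_of_maps_to (s := (univ : Finset (Fin h))) (t := A) (g := f) (fun i _ => hf i)]
    apply sum_congr rfl
    intro a _
    rw [sum_congr rfl (fun i hi => (mem_filter.1 hi).2), sum_const, natCast_zsmul]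

theorem lower [Fact p.Prime] (h : ℕ) (hp : h < p) (A : Finset (Fin r → ZMod p)) (hA : A.card = 2) :
    h + 1 ≤ (hfold A h).ncard := by
  classical
  obtain ⟨a, b, hab, rfl⟩ := card_eq_two.1 hA
  have hfin : (hfold ({a, b} : Finset (Fin r → ZMod p)) h).Finite := Set.toFinite _
  let g : ℕ → (Fin r → ZMod p) := fun j => j • a + (h - j) • b
  have hinj : Set.InjOn g (↑(range (h+1)) : Set ℕ) := by
    intro i hi j hj hij
    rw [mem_coe, mem_range] at hi hj
    simp only [g] at hij
    obtain ⟨t, ht⟩ : ∃ t, a t ≠ b t := by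
      by_contra hcon
      push Not at hcon
      exact hab (funext hcon)
    have h1 := congrFun hij t
    simp only [Pi.add_apply, Pi.smul_apply] at h1
    simp only [nsmul_eq_mul] at h1
    rw [Nat.cast_sub (by omega), Nat.cast_sub (by omega)] at h1
    have h2 : ((i:ZMod p) - (j:ZMod p)) * (a t - b t) = 0 := by linear_combination h1
    rcases mul_eq_zero.1 h2 with h3 | h3
    · have h4 : (i : ZMod p) = (j : ZMod p) := sub_eq_zero.1 h3
      rw [ZMod.natCast_eq_natCast_iff] at h4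
      exact Nat.ModEq.eq_of_lt_of_lt h4 (by omega) (by omega)
    · exact absurd (sub_eq_zero.1 h3) ht
  have hsub : (↑((range (h+1)).image g) : Set (Fin r → ZMod p)) ⊆ hfold {a, b} h := by
    intro x hx
    rw [mem_coe, mem_image] at hx
    obtain ⟨j, hj, rfl⟩ := hx
    rw [mem_range] at hj
    refine ⟨fun i => if (i : ℕ) < j then a else b, ?_, ?_⟩
    · intro i
      simp only
      split_ifs <;> simp
    · simp only [g]
      rw [sum_ite, sum_const, sum_const]
      have h1 : ((univ : Finset (Fin h)).filter (fun i : Fin h => (i:ℕ) < j)).card = j := by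
        rw [Fin.card_filter_val_lt]; omega
      have h2 : ((univ : Finset (Fin h)).filter (fun i : Fin h => ¬ (i:ℕ) < j)).card = h - j := by
        have := card_filter_add_card_filter_not (s := (univ : Finset (Fin h))) (fun i : Fin h => (i:ℕ) < j)
        rw [card_univ, Fintype.card_fin, h1] at this
        omega
      rw [h1, h2]
  calc h + 1 = ((range (h+1)).image g).card := by
        rw [card_image_of_injOn hinj, card_range]
    _ = (↑((range (h+1)).image g) : Set (Fin r → ZMod p)).ncard := (Set.ncard_coe_finset _).symm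
    _ ≤ _ := Set.ncard_le_ncard hsub hfin

theorem upper [Fact p.Prime] (h : ℕ) (a : Fin r → ZMod p) (ha : a ≠ -a) :
    (signed ({a, -a} : Finset (Fin r → ZMod p)) h).ncard ≤ h + 1 := by
  classical
  have hsub : signed ({a, -a} : Finset (Fin r → ZMod p)) h ⊆
      ↑((range (h+1)).image (fun s : ℕ => (2 * (s:ℤ) - h) • a)) := by
    rintro x ⟨l, hl, rfl⟩
    rw [sum_pair ha] at hl ⊢
    rw [mem_coe, mem_image]
    have h1 : ∃ s : ℕ, s < h + 1 ∧ l a - l (-a) = 2 * (s:ℤ) - h := by
      refine ⟨((l a - l (-a) + h)/2).toNat, ?_⟩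
      rcases abs_cases (l a) with h1 | h1 <;> rcases abs_cases (l (-a)) with h2 | h2 <;>
        (rw [h1.1, h2.1] at hl; constructor <;> omega)
    obtain ⟨s, hs, hs'⟩ := h1
    refine ⟨s, mem_range.2 hs, ?_⟩
    rw [← hs', sub_smul, smul_neg, sub_eq_add_neg]
  calc _ ≤ (↑((range (h+1)).image (fun s : ℕ => (2 * (s:ℤ) - h) • a)) : Set (Fin r → ZMod p)).ncard :=
        Set.ncard_le_ncard hsub (Finset.finite_toSet _)
    _ = _ := Set.ncard_coe_finset _
    _ ≤ (range (h+1)).card := card_image_le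
    _ = h + 1 := card_range _

theorem values [Fact p.Prime] (h2 : p ≠ 2) (hr : 1 ≤ r) (h : ℕ) (hp : h < p) :
    rho (Fin r → ZMod p) 2 h = h + 1 ∧ rhoS (Fin r → ZMod p) 2 h = h + 1 := by
  classical
  -- a set {a, -a}
  have hpp : p.Prime := Fact.out
  let a : Fin r → ZMod p := fun _ => 1
  have ha : a ≠ -a := by
    intro h3
    have h4 := congrFun h3 ⟨0, hr⟩
    simp only [a, Pi.neg_apply] at h4
    have h5 : ((2:ℕ) : ZMod p) = 0 := by push_cast; linear_combination h4
    rw [ZMod.natCast_eq_zero_iff] at h5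
    exact h2 ((Nat.prime_dvd_prime_iff_eq hpp Nat.prime_two).1 h5)
  have hcard : ({a, -a} : Finset (Fin r → ZMod p)).card = 2 := card_pair ha
  have hup := upper h a ha
  have hlow : ∀ A : Finset (Fin r → ZMod p), A.card = 2 → h + 1 ≤ (signed A h).ncard :=
    fun A hA => (lower h hp A hA).trans (Set.ncard_le_ncard (hfold_subset A h) (Set.toFinite _))
  have hup' : (hfold ({a, -a} : Finset (Fin r → ZMod p)) h).ncard ≤ h + 1 :=
    (Set.ncard_le_ncard (hfold_subset _ h) (Set.toFinite _)).trans hup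
  constructor
  · apply le_antisymm
    · have hm1 : (hfold ({a, -a} : Finset (Fin r → ZMod p)) h).ncard ∈
          {n | ∃ A : Finset (Fin r → ZMod p), A.card = 2 ∧ (hfold A h).ncard = n} := ⟨_, hcard, rfl⟩
      exact (Nat.sInf_le hm1).trans hup'
    · apply le_csInf
      · exact ⟨_, _, hcard, rfl⟩
      · rintro n ⟨A, hA, rfl⟩
        exact lower h hp A hA
  · apply le_antisymm
    · have hm1 : (signed ({a, -a} : Finset (Fin r → ZMod p)) h).ncard ∈
          {n | ∃ A : Finset (Fin r → ZMod p), A.card = 2 ∧ (signed A h).ncard = n} := ⟨_, hcard, rfl⟩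
      exact (Nat.sInf_le hm1).trans hup
    · apply le_csInf
      · exact ⟨_, _, hcard, rfl⟩
      · rintro n ⟨A, hA, rfl⟩
        exact hlow A hA

/-- For every odd prime `p`, every `r ≥ 2` and every `h` with `2 ≤ h ≤ p - 1` that does not
divide `p - 1`, the triple with `m = 2` satisfies all hypotheses of Q1 (with `k = c = 0`, so that
`m > (c+1)p^k = 1`), but `ρ_± = ρ = h + 1`. In particular the assertion of Q1 is false. -/
theorem result :
    (∀ p r h : ℕ, p.Prime → p ≠ 2 → 2 ≤ r → 2 ≤ h → h ≤ p - 1 → ¬ h ∣ p - 1 →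
      IsGreatest {k : ℕ | p ^ k + delta p h ≤ h * 2 - h + 1} 0 ∧
      IsGreatest {c : ℕ | (h * c + 1) * p ^ 0 + delta p h ≤ h * 2 - h + 1} 0 ∧
      (0 + 1) * p ^ 0 < 2 ∧
      rhoS (Fin r → ZMod p) 2 h = rho (Fin r → ZMod p) 2 h ∧
      rho (Fin r → ZMod p) 2 h = h + 1) ∧
    ¬ (∀ p r h m k c : ℕ, p.Prime → p ≠ 2 → 2 ≤ r → 2 ≤ h → h ≤ p - 1 → 2 ≤ m → m ≤ p ^ r →
      IsGreatest {k : ℕ | p ^ k + delta p h ≤ h * m - h + 1} k →
      IsGreatest {c : ℕ | (h * c + 1) * p ^ k + delta p h ≤ h * m - h + 1} c →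
      (c + 1) * p ^ k < m →
      rho (Fin r → ZMod p) m h < rhoS (Fin r → ZMod p) m h) := by
  have key : ∀ p r h : ℕ, p.Prime → p ≠ 2 → 2 ≤ r → 2 ≤ h → h ≤ p - 1 → ¬ h ∣ p - 1 →
      IsGreatest {k : ℕ | p ^ k + delta p h ≤ h * 2 - h + 1} 0 ∧
      IsGreatest {c : ℕ | (h * c + 1) * p ^ 0 + delta p h ≤ h * 2 - h + 1} 0 ∧
      (0 + 1) * p ^ 0 < 2 ∧
      rhoS (Fin r → ZMod p) 2 h = rho (Fin r → ZMod p) 2 h ∧
      rho (Fin r → ZMod p) 2 h = h + 1 := by
    intro p r h hp h2 hr hh hhp hd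
    have hδ : delta p h = 1 := by simp [delta, hd]
    have hlt : h < p := by have := hp.two_le; omega
    have : Fact p.Prime := ⟨hp⟩
    have hv := values (p := p) (r := r) h2 (by omega) h hlt
    refine ⟨⟨?_, ?_⟩, ⟨?_, ?_⟩, by norm_num, by rw [hv.1, hv.2], hv.1⟩
    · simp only [Set.mem_ofPred_eq, pow_zero, hδ]; omega
    · intro k hk
      simp only [Set.mem_ofPred_eq, hδ] at hk
      rcases k with _ | k
      · exact le_rfl
      · exfalso
        have h3 : p ≤ p ^ (k+1) := Nat.le_self_pow (by omega) p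
        omega
    · simp only [Set.mem_ofPred_eq, pow_zero, hδ]; omega
    · intro c hc
      simp only [Set.mem_ofPred_eq, pow_zero, hδ] at hc
      rcases c with _ | c
      · exact le_rfl
      · exfalso
        have h3 : h * (c+1) = h * c + h := by ring
        rw [h3] at hc
        omega
  refine ⟨key, ?_⟩
  intro H
  obtain ⟨h1, h2, h3, h4, -⟩ := key 5 2 3 (by norm_num) (by norm_num) le_rfl (by norm_num)
    (by norm_num) (by decide)
  have := H 5 2 3 2 0 0 (by norm_num) (by norm_num) le_rfl (by norm_num) (by norm_num) le_rfl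
    (by norm_num) h1 h2 h3
  omega

end Pool.Agent.Results.MP_2c5934_co.SmallSets
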